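import Pool.Agent.MWA.StmtsB

/-!
# Block MWA, row CNO: the one letter identities of the systems
-/

set_option autoImplicit false

namespace Pool.Agent.MWA.H32

open Pool.Agent.Helper14_MV Pool.Agent.Helper2_MV Pool.Agent.MVO Pool.Agent.MWL Pool.Agent.MWS

theorem absb (trn : MWL.TrnStmt) (hab : HabStmt) {β : FIC} (h0 : RR β [0, 0] [0, 0, 0]) {k : ℕ}
    {a b : ℕ → ℕ} (h : L1 β k a b) (t : ℕ) (ht : t ≤ k) (h2 : 2 ≤ b t) : AbF β k a t :=
  ((trn 1 (FC.ofFIC β) k a t).1 b h).2 ((hab β h0).1 k b t ht h2)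

/-- **CNO** -/
theorem cno (trn : MWL.TrnStmt) (hab : HabStmt) : CnoStmt := by
  intro β h0
  refine ⟨fun h => h, fun h => ?_, fun h => ?_, fun h => ?_, fun h => ?_⟩
  · have h1 : L1 β 2 (v3 1 1 1) (v3 2 2 2) := h
    have hA : ∀ t ≤ 2, AbF β 2 (v3 1 1 1) t := by
      intro t ht
      refine absb trn hab h0 h1 t ht ?_
      interval_cases t <;> simp [v3]
    refine ⟨hA 0 (by norm_num), hA 1 (by norm_num), hA 2 (by norm_num), ?_⟩
    have h2 := (trn 1 (FC.ofFIC β) 2 (v3 1 1 1) 0).2.2.2 1 (fun t => if t = 0 then 0 else 1)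
      ⟨by intro i j hij _; split_ifs <;> omega,
        by intro i _; split_ifs <;> omega⟩ (by norm_num) (hA 0 (by norm_num))
    refine ((trn 1 (FC.ofFIC β) 1 (psh 2 (fun t => if t = 0 then 0 else 1) (v3 1 1 1)) 0).2.2.1
      (v2 1 2) ?_).1 h2
    intro j hj
    interval_cases j <;> rfl
  · have h1 : L1 β 2 (v3 1 1 1) (v3 1 1 2) := h
    exact absb trn hab h0 h1 2 le_rfl (by simp [v3])
  · have h1 : L1 β 2 (v3 1 1 1) (v3 2 1 1) := h
    exact absb trn hab h0 h1 0 (by norm_num) (by simp [v3])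
  · have h1 : L1 β 2 (v3 1 1 1) (v3 2 2 1) := h
    exact ⟨absb trn hab h0 h1 0 (by norm_num) (by simp [v3]),
      absb trn hab h0 h1 1 (by norm_num) (by simp [v3])⟩

end Pool.Agent.MWA.H32
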