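import Pool.Agent.MWA.Stmts
import Pool.Agent.Helper28_MVO.ORD

/-!
# Block MWA, row ORA: the order of the letters in gathered words
-/

set_option autoImplicit false

namespace Pool.Agent.MWA.H32

open Pool.Agent.Helper14_MV Pool.Agent.Helper2_MV Pool.Agent.MVO Pool.Agent.MWL Pool.Agent.MWS
open Pool.Agent.MVO.H28 (hxy bef bef_true bef_false not_both flat_bl blkOk_gb exch_perm)

theorem blkOk_r2 {k : ℕ} {U : ℕ → List ℕ} (hU : BlkOk k U) (x y : ℕ) : BlkOk k (r2 x y U) := by
  intro j hj c hc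
  exact hU j hj c (List.mem_filter.1 hc).1

theorem rr_r2 (θ : FIC) (k : ℕ) (U W : ℕ → List ℕ) (hU : BlkOk k U) (hW : BlkOk k W) (x y : ℕ)
    (h : RR θ (asm k U) (asm k W)) : RR θ (asm k (r2 x y U)) (asm k (r2 x y W)) := by
  have aux : ∀ Z : ℕ → List ℕ, BlkOk k Z →
      (asm k Z).filter (fun c => decide (c = x ∨ c = y) || decide (2 ≤ c ∧ c ≤ k + 1)) =
        asm k (r2 x y Z) := by
    intro Z hZ
    rw [asm_filter (fun c => decide (c = x ∨ c = y) || decide (2 ≤ c ∧ c ≤ k + 1)) (by
      intro c h1 h2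
      rw [decide_eq_true (p := 2 ≤ c ∧ c ≤ k + 1) ⟨h1, h2⟩, Bool.or_true])]
    refine asm_congr (fun j hj => ?_)
    unfold r2
    refine List.filter_congr (fun c hc => ?_)
    have h1 : ¬ (2 ≤ c ∧ c ≤ k + 1) := hZ j hj c hc
    rw [decide_eq_false h1, Bool.or_false]
  have h1 := h.filter (fun c => decide (c = x ∨ c = y) || decide (2 ≤ c ∧ c ≤ k + 1))
  rw [aux U hU, aux W hW] at h1
  exact h1

theorem flat_filter (x y : ℕ) (l : List ℕ) :
    (l.filter (fun c => decide (c = x ∨ c = y))).flatMap (hxy x y) = l.flatMap (hxy x y) := by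
  induction l with
  | nil => rfl
  | cons c l ih =>
    by_cases h : c = x ∨ c = y
    · rw [List.filter_cons_of_pos (by simpa using h), List.flatMap_cons, List.flatMap_cons, ih]
    · rw [List.filter_cons_of_neg (by simpa using h), ih, List.flatMap_cons]
      push Not at h
      have e : hxy x y c = [] := by
        unfold hxy
        rw [if_neg h.1, if_neg h.2]
      rw [e, List.nil_append]

/-- the family is as good as the given one -/
def Gd (θ : FIC) (k : ℕ) (X : List ℕ) (n : ℕ → ℕ → ℕ) (D' F : ℕ → List ℕ) : Prop :=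
  GData k X n F ∧ ∀ x ∈ X, ∀ y ∈ X, x ≠ y →
    RR θ (asm k (r2 x y (fun j => gb (n j) (F j)))) (asm k (r2 x y (fun j => gb (n j) (D' j))))

theorem step {β θ : FIC} (hSW : SW β) (hβθ : β ≤ θ) (hcl : ClA θ) (w2x : W2xStmt)
    (hb1 : ∀ (k : ℕ) (a b : ℕ → ℕ) (i : ℕ), deg k a ≠ 1 → deg k b ≠ 1 →
      ¬ (Lst k a i ∧ Lst k b i) → Bt θ k a b i)
    {k : ℕ} {X : List ℕ} {n : ℕ → ℕ → ℕ} {D' F : ℕ → List ℕ} (hF : Gd θ k X n D' F)
    (hD' : ∀ j, (D' j).Perm X) {i : ℕ} (hi : i ≤ k) {l2 : List ℕ} (hex : Exch (D' i) (F i) l2) :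
    Gd θ k X n D' (Function.update F i l2) ∧
      RR θ (gw k n F) (gw k n (Function.update F i l2)) := by
  obtain ⟨hG, hres⟩ := hF
  have hG2 : GData k X n (Function.update F i l2) := by
    refine ⟨hG.nodup, hG.ns, hG.mult, fun j => ?_⟩
    by_cases hj : j = i
    · subst hj
      rw [Function.update_self]
      exact (exch_perm hex).trans (hG.perm j)
    · rw [Function.update_of_ne hj]
      exact hG.perm j
  have hmain : RR θ (gw k n F) (gw k n (Function.update F i l2)) := by
    obtain ⟨A, B, x, y, hFi, rfl, P, Q, R, hD'i⟩ := hex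
    have hGD' : GData k X n D' := ⟨hG.nodup, hG.ns, hG.mult, hD'⟩
    have hnd : ∀ j, (F j).Nodup := fun j => (hG.perm j).nodup_iff.2 hG.nodup
    have hnd' : ∀ j, (D' j).Nodup := fun j => (hD' j).nodup_iff.2 hG.nodup
    have hxX : x ∈ X := (hG.perm i).mem_iff.1 (by rw [hFi]; simp)
    have hyX : y ∈ X := (hG.perm i).mem_iff.1 (by rw [hFi]; simp)
    have hne : x ≠ y := by
      intro h
      have h1 := hnd i
      rw [hFi, h] at h1
      have h2 := (List.nodup_append.1 h1).2.1
      rw [List.nodup_cons] at h2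
      exact h2.1 (List.mem_cons_self ..)
    have hxF : ∀ j, x ∈ F j := fun j => (hG.perm j).mem_iff.2 hxX
    have hyF : ∀ j, y ∈ F j := fun j => (hG.perm j).mem_iff.2 hyX
    have hxD' : ∀ j, x ∈ D' j := fun j => (hD' j).mem_iff.2 hxX
    have hyD' : ∀ j, y ∈ D' j := fun j => (hD' j).mem_iff.2 hyX
    have hda : deg k (fun j => n j x) ≠ 1 := by
      have := hG.mult x hxX
      omega
    have hdb : deg k (fun j => n j y) ≠ 1 := by
      have := hG.mult y hyX
      omega
    refine hSW θ hβθ k X n F hG i hi A B x y hFi ?_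
    by_cases hL : Lst k (fun j => n j x) i ∧ Lst k (fun j => n j y) i
    · have e1 : asm k (fun j => (r2 x y (fun j => gb (n j) (F j)) j).flatMap (hxy x y)) =
          w2 k (fun j => n j x) (fun j => n j y) (fun j => bef x y (F j)) := by
        unfold w2
        refine asm_congr fun j _ => ?_
        show ((gb (n j) (F j)).filter (fun c => decide (c = x ∨ c = y))).flatMap (hxy x y) = _
        rw [flat_filter]
        exact flat_bl (n j) hne (hnd j) (hxF j) (hyF j)
      have e2 : asm k (fun j => (r2 x y (fun j => gb (n j) (D' j)) j).flatMap (hxy x y)) =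
          w2 k (fun j => n j x) (fun j => n j y) (fun j => bef x y (D' j)) := by
        unfold w2
        refine asm_congr fun j _ => ?_
        show ((gb (n j) (D' j)).filter (fun c => decide (c = x ∨ c = y))).flatMap (hxy x y) = _
        rw [flat_filter]
        exact flat_bl (n j) hne (hnd' j) (hxD' j) (hyD' j)
      have h0 : bef x y (F i) = false := by
        apply bef_false
        rintro ⟨P', Q', R', h⟩
        exact not_both hne (hnd i) (P := A) (Q := []) (R := B) (by rw [hFi]; simp) h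
      have h1 : bef x y (D' i) = true := bef_true ⟨P, Q, R, hD'i⟩
      have h2 := rr_sub θ (hxy x y) (blkOk_r2 (blkOk_gb hG) x y) (blkOk_r2 (blkOk_gb hGD') x y)
        (hres x hxX y hyX hne)
      rw [e1, e2] at h2
      refine w2x θ hcl k _ _ i _ _ hda hdb hL.1 hL.2 ?_ h2
      rw [h0, h1]
      decide
    · exact hb1 k _ _ i hda hdb hL
  refine ⟨⟨hG2, fun x hx y hy hxy' => ?_⟩, hmain⟩
  have h1 := rr_r2 θ k _ _ (blkOk_gb hG) (blkOk_gb hG2) x y hmain
  exact θ.trans (RR.symm h1) (hres x hx y hy hxy')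

/-- the general form of ORA and ORQ -/
theorem ord {β θ : FIC} (hSW : SW β) (hβθ : β ≤ θ) (hcl : ClA θ) (hBub : BubStmt)
    (w2x : W2xStmt)
    (hb1 : ∀ (k : ℕ) (a b : ℕ → ℕ) (i : ℕ), deg k a ≠ 1 → deg k b ≠ 1 →
      ¬ (Lst k a i ∧ Lst k b i) → Bt θ k a b i)
    (k : ℕ) (X : List ℕ) (n : ℕ → ℕ → ℕ) (D D' : ℕ → List ℕ) (hD : GData k X n D)
    (hD' : ∀ j, (D' j).Perm X)
    (h : ∀ x ∈ X, ∀ y ∈ X, x ≠ y → RR θ (asm k (r2 x y (fun j => gb (n j) (D j))))
      (asm k (r2 x y (fun j => gb (n j) (D' j))))) : RR θ (gw k n D) (gw k n D') := by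
  have key : ∀ m ≤ k + 1, ∃ D1 : ℕ → List ℕ, Gd θ k X n D' D1 ∧
      RR θ (gw k n D) (gw k n D1) ∧ ∀ j < m, D1 j = D' j := by
    intro m
    induction m with
    | zero =>
      intro _
      exact ⟨D, ⟨hD, h⟩, RR.refl _, fun j hj => absurd hj (Nat.not_lt_zero j)⟩
    | succ m ih =>
      intro hm
      obtain ⟨D1, hI, hω, hj⟩ := ih (by omega)
      have hmk : m ≤ k := by omega
      have hb := hBub (D1 m) (D' m) ((hI.1.perm m).trans (hD' m).symm)
        ((hD' m).nodup_iff.2 hD.nodup)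
      have hloop : ∀ l : List ℕ, Relation.ReflTransGen (Exch (D' m)) (D1 m) l →
          Gd θ k X n D' (Function.update D1 m l) ∧
          RR θ (gw k n D1) (gw k n (Function.update D1 m l)) := by
        intro l hl
        induction hl with
        | refl =>
          rw [Function.update_eq_self]
          exact ⟨hI, RR.refl _⟩
        | tail hd hst ih2 =>
          rename_i l1 l2
          obtain ⟨hI1, hω1⟩ := ih2
          have h1 := step hSW hβθ hcl w2x hb1 hI1 hD' hmk (l2 := l2)
            (by rw [Function.update_self]; exact hst)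
          rw [Function.update_idem] at h1
          exact ⟨h1.1, FIC.trans _ hω1 h1.2⟩
      obtain ⟨h1, h2⟩ := hloop _ hb
      refine ⟨_, h1, FIC.trans _ hω h2, fun j hjm => ?_⟩
      by_cases hjm' : j = m
      · subst hjm'
        rw [Function.update_self]
      · rw [Function.update_of_ne hjm']
        exact hj j (by omega)
  obtain ⟨D1, _, hω, hj⟩ := key (k + 1) le_rfl
  have e : gw k n D1 = gw k n D' := by
    unfold gw
    exact asm_congr fun j hjk => by rw [hj j (by omega)]
  rw [← e]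
  exact hω

/-- **ORA** -/
theorem ora (swa : MVO.SwaStmt) (bub : MVO.BubStmt) (w2x : W2xStmt) (bta : BtaStmt) :
    OraStmt := by
  intro β hβ θ hβθ k X n D D' hD hD' h
  exact ord (swa β hβ.cl) hβθ (ClA.mono hβ.cl hβθ) bub w2x (bta θ (hβ.mono hβθ)).1 k X n D D' hD
    hD' h

end Pool.Agent.MWA.H32
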